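import Mathlib

set_option autoImplicit false

/-!
# Steinberg's theorem on packing rectangles into a rectangle

Rectangles of widths `a i ≤ A ≤ u` and heights `b i ≤ B ≤ v` with
`2 * ∑ a i * b i ≤ u * v - (2 * A - u)⁺ * (2 * B - v)⁺` can be packed, axis-parallel and without
rotations, into a box of width `u` and height `v` (A. Steinberg, 1997).
-/

namespace Pool.Agent.V7H17.Steinberg

open Finset

variable {ι : Type*}

/-- axis-parallel packing of the rectangles `a i × b i`, `i ∈ s`, into the box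
`[p, p + u] × [q, q + v]` -/
def Packs (a b : ι → ℝ) (s : Finset ι) (p q u v : ℝ) : Prop :=
  ∃ x y : ι → ℝ, (∀ i ∈ s, p ≤ x i ∧ x i + a i ≤ p + u ∧ q ≤ y i ∧ y i + b i ≤ q + v) ∧
    ∀ i ∈ s, ∀ j ∈ s, i ≠ j →
      x i + a i ≤ x j ∨ x j + a j ≤ x i ∨ y i + b i ≤ y j ∨ y j + b j ≤ y i

theorem Packs.move {a b : ι → ℝ} {s : Finset ι} {p q u v : ℝ} (h : Packs a b s p q u v)
    (p' q' : ℝ) : Packs a b s p' q' u v := by
  obtain ⟨x, y, h1, h2⟩ := h
  refine ⟨fun i => x i - p + p', fun i => y i - q + q', fun i hi => ?_, fun i hi j hj hij => ?_⟩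
  · obtain ⟨g1, g2, g3, g4⟩ := h1 i hi
    refine ⟨?_, ?_, ?_, ?_⟩ <;> dsimp only <;> linarith
  · dsimp only
    rcases h2 i hi j hj hij with g | g | g | g
    · left; linarith
    · right; left; linarith
    · right; right; left; linarith
    · right; right; right; linarith

theorem Packs.swap {a b : ι → ℝ} {s : Finset ι} {p q u v : ℝ} (h : Packs b a s q p v u) :
    Packs a b s p q u v := by
  obtain ⟨x, y, h1, h2⟩ := h
  refine ⟨y, x, fun i hi => ?_, fun i hi j hj hij => ?_⟩
  · obtain ⟨g1, g2, g3, g4⟩ := h1 i hi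
    exact ⟨g3, g4, g1, g2⟩
  · rcases h2 i hi j hj hij with g | g | g | g <;> tauto

/-- two packings in boxes with disjoint interiors give one packing -/
theorem Packs.union {a b : ι → ℝ} {s t : Finset ι} [DecidableEq ι] {p q u v p1 q1 u1 v1 p2 q2 u2 v2 : ℝ}
    (h1 : Packs a b s p1 q1 u1 v1) (h2 : Packs a b t p2 q2 u2 v2)
    (hb1 : p ≤ p1 ∧ p1 + u1 ≤ p + u ∧ q ≤ q1 ∧ q1 + v1 ≤ q + v)
    (hb2 : p ≤ p2 ∧ p2 + u2 ≤ p + u ∧ q ≤ q2 ∧ q2 + v2 ≤ q + v)
    (hsep : p1 + u1 ≤ p2 ∨ p2 + u2 ≤ p1 ∨ q1 + v1 ≤ q2 ∨ q2 + v2 ≤ q1) :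
    Packs a b (s ∪ t) p q u v := by
  obtain ⟨x, y, g1, g2⟩ := h1
  obtain ⟨x', y', k1, k2⟩ := h2
  refine ⟨fun i => if i ∈ s then x i else x' i, fun i => if i ∈ s then y i else y' i,
    fun i hi => ?_, fun i hi j hj hij => ?_⟩
  · by_cases his : i ∈ s
    · obtain ⟨l1, l2, l3, l4⟩ := g1 i his
      simp only [his, if_true]
      refine ⟨?_, ?_, ?_, ?_⟩ <;> linarith [hb1.1, hb1.2.1, hb1.2.2.1, hb1.2.2.2]
    · have hit : i ∈ t := by
        rcases Finset.mem_union.1 hi with h | h
        · exact absurd h his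
        · exact h
      obtain ⟨l1, l2, l3, l4⟩ := k1 i hit
      simp only [his, if_false]
      refine ⟨?_, ?_, ?_, ?_⟩ <;> linarith [hb2.1, hb2.2.1, hb2.2.2.1, hb2.2.2.2]
  · by_cases his : i ∈ s <;> by_cases hjs : j ∈ s
    · simp only [his, hjs, if_true]
      exact g2 i his j hjs hij
    · have hjt : j ∈ t := by
        rcases Finset.mem_union.1 hj with h | h
        · exact absurd h hjs
        · exact h
      obtain ⟨l1, l2, l3, l4⟩ := g1 i his
      obtain ⟨m1, m2, m3, m4⟩ := k1 j hjt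
      simp only [his, hjs, if_true, if_false]
      rcases hsep with h | h | h | h
      · left; linarith
      · right; left; linarith
      · right; right; left; linarith
      · right; right; right; linarith
    · have hit : i ∈ t := by
        rcases Finset.mem_union.1 hi with h | h
        · exact absurd h his
        · exact h
      obtain ⟨l1, l2, l3, l4⟩ := k1 i hit
      obtain ⟨m1, m2, m3, m4⟩ := g1 j hjs
      simp only [his, hjs, if_true, if_false]
      rcases hsep with h | h | h | h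
      · right; left; linarith
      · left; linarith
      · right; right; right; linarith
      · right; right; left; linarith
    · have hit : i ∈ t := by
        rcases Finset.mem_union.1 hi with h | h
        · exact absurd h his
        · exact h
      have hjt : j ∈ t := by
        rcases Finset.mem_union.1 hj with h | h
        · exact absurd h hjs
        · exact h
      simp only [his, hjs, if_false]
      exact k2 i hit j hjt hij

theorem packs_empty (a b : ι → ℝ) (p q u v : ℝ) : Packs a b ∅ p q u v :=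
  ⟨fun _ => 0, fun _ => 0, by simp, by simp⟩

theorem packs_single (a b : ι → ℝ) (i : ι) (p q u v : ℝ) (h1 : a i ≤ u) (h2 : b i ≤ v) :
    Packs a b {i} p q u v :=
  ⟨fun _ => p, fun _ => q, by
    intro j hj
    rw [Finset.mem_singleton] at hj
    subst hj
    refine ⟨le_refl _, ?_, le_refl _, ?_⟩ <;> linarith, by
    intro j hj k hk hjk
    rw [Finset.mem_singleton] at hj hk
    exact absurd (hj.trans hk.symm) hjk⟩

/-- stacking: the members of `s` are piled up, the wide ones first -/
theorem stack (a b : ι → ℝ) (s : Finset ι) (ha : ∀ i ∈ s, 0 ≤ a i) (hb : ∀ i ∈ s, 0 ≤ b i) :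
    ∃ y : ι → ℝ, (∀ i ∈ s, 0 ≤ y i) ∧ (∀ i ∈ s, y i + b i ≤ ∑ j ∈ s, b j) ∧
      (∀ i ∈ s, ∀ j ∈ s, i ≠ j → y i + b i ≤ y j ∨ y j + b j ≤ y i) ∧
      (∀ i ∈ s, a i * (y i + b i) ≤ ∑ j ∈ s, a j * b j) ∧
      (s.Nonempty → ∃ i ∈ s, y i + b i = ∑ j ∈ s, b j) := by
  classical
  revert ha hb
  refine Finset.induction_on_min_value a s ?_ ?_
  · intro _ _
    exact ⟨fun _ => 0, by simp, by simp, by simp, by simp, by simp⟩
  · intro k s hk hmin ih ha hb
    obtain ⟨y, h1, h2, h3, h4, -⟩ := ih (fun i hi => ha i (Finset.mem_insert_of_mem hi))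
      (fun i hi => hb i (Finset.mem_insert_of_mem hi))
    have hbk : 0 ≤ b k := hb k (Finset.mem_insert_self _ _)
    have hbs : ∀ i ∈ s, 0 ≤ b i := fun i hi => hb i (Finset.mem_insert_of_mem hi)
    have hsum : 0 ≤ ∑ j ∈ s, b j := Finset.sum_nonneg hbs
    have hne : ∀ i ∈ s, i ≠ k := fun i hi h => hk (h ▸ hi)
    refine ⟨fun i => if i = k then ∑ j ∈ s, b j else y i, ?_, ?_, ?_, ?_, ?_⟩
    · intro i hi
      by_cases hik : i = k
      · simp only [hik, if_true]; exact hsum
      · simp only [hik, if_false]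
        exact h1 i (Finset.mem_of_mem_insert_of_ne hi hik)
    · intro i hi
      rw [Finset.sum_insert hk]
      by_cases hik : i = k
      · simp only [hik, if_true]; linarith
      · simp only [hik, if_false]
        have := h2 i (Finset.mem_of_mem_insert_of_ne hi hik)
        linarith
    · intro i hi j hj hij
      by_cases hik : i = k
      · have hjk : j ≠ k := fun h => hij (hik.trans h.symm)
        simp only [hik, hjk, if_true, if_false]
        right
        exact h2 j (Finset.mem_of_mem_insert_of_ne hj hjk)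
      · by_cases hjk : j = k
        · simp only [hik, hjk, if_true, if_false]
          left
          exact h2 i (Finset.mem_of_mem_insert_of_ne hi hik)
        · simp only [hik, hjk, if_false]
          exact h3 i (Finset.mem_of_mem_insert_of_ne hi hik) j
            (Finset.mem_of_mem_insert_of_ne hj hjk) hij
    · intro i hi
      rw [Finset.sum_insert hk]
      by_cases hik : i = k
      · simp only [hik, if_true]
        have : a k * ∑ j ∈ s, b j ≤ ∑ j ∈ s, a j * b j := by
          rw [Finset.mul_sum]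
          exact Finset.sum_le_sum fun j hj => mul_le_mul_of_nonneg_right (hmin j hj) (hbs j hj)
        nlinarith
      · simp only [hik, if_false]
        have hi' := Finset.mem_of_mem_insert_of_ne hi hik
        have g1 := h4 i hi'
        have := mul_nonneg (ha k (Finset.mem_insert_self _ _)) hbk
        linarith
    · intro _
      refine ⟨k, Finset.mem_insert_self _ _, ?_⟩
      rw [Finset.sum_insert hk]
      simp only [if_true]
      ring


/-- the statement proved by induction -/
def Good (a b : ι → ℝ) (s : Finset ι) : Prop :=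
  ∀ u v A B : ℝ, (∀ i ∈ s, a i ≤ A) → (∀ i ∈ s, b i ≤ B) → A ≤ u → B ≤ v →
    2 * ∑ i ∈ s, a i * b i ≤ u * v - max (2 * A - u) 0 * max (2 * B - v) 0 → Packs a b s 0 0 u v

/-- first procedure: some rectangle is wider than half of the box -/
theorem proc1 (a b : ι → ℝ) (s : Finset ι) (ha : ∀ i ∈ s, 0 < a i) (hb : ∀ i ∈ s, 0 < b i)
    (ih : ∀ t ⊂ s, Good a b t) (u v A B : ℝ) (hA : ∀ i ∈ s, a i ≤ A) (hB : ∀ i ∈ s, b i ≤ B)
    (hAu : A ≤ u) (hBv : B ≤ v)
    (hS : 2 * ∑ i ∈ s, a i * b i ≤ u * v - max (2 * A - u) 0 * max (2 * B - v) 0)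
    (hw : ∃ i ∈ s, u / 2 < a i) : Packs a b s 0 0 u v := by
  classical
  set M := s.filter (fun i => u / 2 < a i) with hM
  set v1 := ∑ i ∈ M, b i with hv1
  set K := s.filter (fun i => ¬ (u / 2 < a i) ∧ v - v1 < b i) with hK
  set L := s.filter (fun i => ¬ (u / 2 < a i) ∧ ¬ (v - v1 < b i)) with hL
  set u1 := ∑ i ∈ K, a i with hu1
  have hMs : M ⊆ s := Finset.filter_subset _ _
  have hKs : K ⊆ s := Finset.filter_subset _ _
  have hLs : L ⊆ s := Finset.filter_subset _ _
  have hMne : M.Nonempty := by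
    obtain ⟨i, hi, hi2⟩ := hw
    exact ⟨i, Finset.mem_filter.2 ⟨hi, hi2⟩⟩
  have hsplit : s = (M ∪ K) ∪ L := by
    ext i
    simp only [hM, hK, hL, Finset.mem_union, Finset.mem_filter]
    tauto
  have hdMK : Disjoint M K := by
    rw [Finset.disjoint_left]
    intro i h1 h2
    exact (Finset.mem_filter.1 h2).2.1 (Finset.mem_filter.1 h1).2
  have hdL : Disjoint (M ∪ K) L := by
    rw [Finset.disjoint_left]
    intro i h1 h2
    rcases Finset.mem_union.1 h1 with h | h
    · exact (Finset.mem_filter.1 h2).2.1 (Finset.mem_filter.1 h).2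
    · exact (Finset.mem_filter.1 h2).2.2 (Finset.mem_filter.1 h).2.2
  have hsum : ∑ i ∈ s, a i * b i =
      ∑ i ∈ M, a i * b i + ∑ i ∈ K, a i * b i + ∑ i ∈ L, a i * b i := by
    conv_lhs => rw [hsplit]
    rw [Finset.sum_union hdL, Finset.sum_union hdMK]
  have hLnn : 0 ≤ ∑ i ∈ L, a i * b i :=
    Finset.sum_nonneg fun i hi => (mul_pos (ha i (hLs hi)) (hb i (hLs hi))).le
  have hKnn : 0 ≤ ∑ i ∈ K, a i * b i :=
    Finset.sum_nonneg fun i hi => (mul_pos (ha i (hKs hi)) (hb i (hKs hi))).le
  have hM1 : u / 2 * v1 ≤ ∑ i ∈ M, a i * b i := by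
    rw [hv1, Finset.mul_sum]
    refine Finset.sum_le_sum fun i hi => mul_le_mul_of_nonneg_right ?_ (hb i (hMs hi)).le
    exact (Finset.mem_filter.1 hi).2.le
  have hK1 : (v - v1) * u1 ≤ ∑ i ∈ K, a i * b i := by
    rw [hu1, Finset.mul_sum]
    refine Finset.sum_le_sum fun i hi => ?_
    rw [mul_comm (a i)]
    exact mul_le_mul_of_nonneg_right (Finset.mem_filter.1 hi).2.2.le (ha i (hKs hi)).le
  have hprod : 0 ≤ max (2 * A - u) 0 * max (2 * B - v) 0 :=
    mul_nonneg (le_max_right _ _) (le_max_right _ _)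
  have hupos : 0 < u := by
    obtain ⟨i, hi, _⟩ := hw
    linarith [ha i hi, hA i hi]
  have hvpos : 0 < v := by
    obtain ⟨i, hi, _⟩ := hw
    linarith [hb i hi, hB i hi]
  have hv1v : v1 ≤ v := by
    have : u * v1 ≤ u * v := by nlinarith
    exact le_of_mul_le_mul_left this hupos
  obtain ⟨y, y0, y1, y2, y3, y4⟩ := stack a b M (fun i hi => (ha i (hMs hi)).le)
    (fun i hi => (hb i (hMs hi)).le)
  obtain ⟨x, x0, x1, x2, x3, x4⟩ := stack b a K (fun i hi => (hb i (hKs hi)).le)
    (fun i hi => (ha i (hKs hi)).le)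
  -- a member of the pile and a member of the hanging row do not overlap
  have key : ∀ i ∈ M, ∀ j ∈ K, a i ≤ u - (x j + a j) ∨ y i + b i ≤ v - b j := by
    intro i hi j hj
    by_contra hcon
    push Not at hcon
    obtain ⟨c1, c2⟩ := hcon
    have hi3 := y3 i hi
    have hj3 := x3 j hj
    have hcomm : ∑ j ∈ K, b j * a j = ∑ i ∈ K, a i * b i :=
      Finset.sum_congr rfl fun i _ => mul_comm _ _
    rw [hcomm] at hj3
    have hai := ha i (hMs hi)
    have hbj := hb j (hKs hj)
    have hip : u / 2 < a i := (Finset.mem_filter.1 hi).2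
    have e1 : a i * (v - b j) < a i * (y i + b i) := mul_lt_mul_of_pos_left (by linarith) hai
    have e2 : b j * (u - a i) < b j * (x j + a j) := mul_lt_mul_of_pos_left (by linarith) hbj
    have e3 : u * v - (2 * a i - u) * (2 * b j - v) < 2 * ∑ i ∈ s, a i * b i := by
      rw [hsum]; nlinarith
    have e4 : (2 * a i - u) * (2 * b j - v) ≤ max (2 * A - u) 0 * max (2 * B - v) 0 := by
      calc (2 * a i - u) * (2 * b j - v) ≤ (2 * a i - u) * max (2 * B - v) 0 := by
            refine mul_le_mul_of_nonneg_left ?_ (by linarith)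
            exact le_trans (by linarith [hB j (hKs hj)]) (le_max_left _ _)
        _ ≤ max (2 * A - u) 0 * max (2 * B - v) 0 := by
            refine mul_le_mul_of_nonneg_right ?_ (le_max_right _ _)
            exact le_trans (by linarith [hA i (hMs hi)]) (le_max_left _ _)
    linarith
  -- the row is short
  have hu1u : u1 ≤ u / 2 := by
    by_contra hcon
    push Not at hcon
    have hKne : K.Nonempty := by
      by_contra h
      rw [Finset.not_nonempty_iff_eq_empty] at h
      rw [hu1, h, Finset.sum_empty] at hcon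
      linarith
    obtain ⟨i, hi, hiy⟩ := y4 hMne
    obtain ⟨j, hj, hjx⟩ := x4 hKne
    have hip : u / 2 < a i := (Finset.mem_filter.1 hi).2
    have hjp : v - v1 < b j := (Finset.mem_filter.1 hj).2.2
    rcases key i hi j hj with h | h
    · rw [hjx] at h
      linarith
    · rw [hiy] at h
      linarith
  -- the remaining rectangles
  have hLs' : L ⊂ s := by
    refine ⟨hLs, fun h => ?_⟩
    obtain ⟨i, hi⟩ := hMne
    exact (Finset.mem_filter.1 (h (hMs hi))).2.1 (Finset.mem_filter.1 hi).2
  have hgood : Packs a b L 0 0 (u - u1) (v - v1) := by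
    refine ih L hLs' (u - u1) (v - v1) (u / 2) (v - v1) ?_ ?_ ?_ ?_ ?_
    · intro i hi
      exact not_lt.1 (Finset.mem_filter.1 hi).2.1
    · intro i hi
      exact not_lt.1 (Finset.mem_filter.1 hi).2.2
    · linarith
    · exact le_refl _
    · have hu1nn : 0 ≤ u1 := Finset.sum_nonneg fun i hi => (ha i (hKs hi)).le
      have e1 : max (2 * (u / 2) - (u - u1)) 0 = u1 := by
        rw [max_eq_left (by linarith)]
        ring
      have e2 : max (2 * (v - v1) - (v - v1)) 0 = v - v1 := by
        rw [max_eq_left (by linarith)]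
        ring
      rw [e1, e2]
      nlinarith
  obtain ⟨X, Y, hX, hXY⟩ := hgood.move 0 v1
  refine ⟨fun i => if i ∈ M then 0 else if i ∈ K then u - (x i + a i) else X i,
    fun i => if i ∈ M then y i else if i ∈ K then v - b i else Y i, ?_, ?_⟩
  · intro i hi
    by_cases hiM : i ∈ M
    · simp only [hiM, if_true]
      refine ⟨le_refl _, ?_, ?_, ?_⟩
      · linarith [hA i hi]
      · exact y0 i hiM
      · linarith [y1 i hiM]
    · by_cases hiK : i ∈ K
      · simp only [hiM, hiK, if_true, if_false]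
        refine ⟨?_, ?_, ?_, ?_⟩
        · linarith [x1 i hiK]
        · linarith [x0 i hiK]
        · linarith [hB i hi]
        · linarith
      · have hiL : i ∈ L := by
          rw [hsplit] at hi
          rcases Finset.mem_union.1 hi with h | h
          · rcases Finset.mem_union.1 h with h | h
            · exact absurd h hiM
            · exact absurd h hiK
          · exact h
        simp only [hiM, hiK, if_false]
        obtain ⟨g1, g2, g3, g4⟩ := hX i hiL
        have hu1nn : 0 ≤ u1 := Finset.sum_nonneg fun i hi => (ha i (hKs hi)).le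
        have hv1nn : 0 ≤ v1 := Finset.sum_nonneg fun i hi => (hb i (hMs hi)).le
        refine ⟨?_, ?_, ?_, ?_⟩ <;> linarith
  · -- pairwise
    have main : ∀ i ∈ s, ∀ j ∈ s, i ≠ j → (i ∈ M ∨ (i ∈ K ∧ j ∉ M) ∨ (i ∈ L ∧ j ∈ L)) →
        (if i ∈ M then 0 else if i ∈ K then u - (x i + a i) else X i) + a i ≤
            (if j ∈ M then 0 else if j ∈ K then u - (x j + a j) else X j) ∨
        (if j ∈ M then 0 else if j ∈ K then u - (x j + a j) else X j) + a j ≤
            (if i ∈ M then 0 else if i ∈ K then u - (x i + a i) else X i) ∨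
        (if i ∈ M then y i else if i ∈ K then v - b i else Y i) + b i ≤
            (if j ∈ M then y j else if j ∈ K then v - b j else Y j) ∨
        (if j ∈ M then y j else if j ∈ K then v - b j else Y j) + b j ≤
            (if i ∈ M then y i else if i ∈ K then v - b i else Y i) := by
      intro i hi j hj hij hcase
      have hLM : ∀ k ∈ s, k ∉ M → k ∉ K → k ∈ L := by
        intro k hk h1 h2
        rw [hsplit] at hk
        rcases Finset.mem_union.1 hk with h | h
        · rcases Finset.mem_union.1 h with h | h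
          · exact absurd h h1
          · exact absurd h h2
        · exact h
      rcases hcase with hiM | ⟨hiK, hjM⟩ | ⟨hiL, hjL⟩
      · by_cases hjM : j ∈ M
        · simp only [hiM, hjM, if_true]
          rcases y2 i hiM j hjM hij with h | h
          · right; right; left; exact h
          · right; right; right; exact h
        · by_cases hjK : j ∈ K
          · simp only [hiM, hjM, hjK, if_true, if_false]
            rcases key i hiM j hjK with h | h
            · left; linarith
            · right; right; left; linarith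
          · have hjL := hLM j hj hjM hjK
            simp only [hiM, hjM, hjK, if_true, if_false]
            obtain ⟨g1, g2, g3, g4⟩ := hX j hjL
            right; right; left
            exact le_trans (y1 i hiM) g3
      · have hiM : i ∉ M := fun h => (Finset.disjoint_left.1 hdMK h) hiK
        by_cases hjK : j ∈ K
        · simp only [hiM, hjM, hiK, hjK, if_true, if_false]
          rcases x2 i hiK j hjK hij with h | h
          · right; left; linarith
          · left; linarith
        · have hjL := hLM j hj hjM hjK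
          simp only [hiM, hjM, hiK, hjK, if_true, if_false]
          obtain ⟨g1, g2, g3, g4⟩ := hX j hjL
          right; left
          linarith [x1 i hiK]
      · have hiM : i ∉ M := fun h =>
          (Finset.disjoint_left.1 hdL (Finset.mem_union_left _ h)) hiL
        have hiK : i ∉ K := fun h =>
          (Finset.disjoint_left.1 hdL (Finset.mem_union_right _ h)) hiL
        have hjM : j ∉ M := fun h =>
          (Finset.disjoint_left.1 hdL (Finset.mem_union_left _ h)) hjL
        have hjK : j ∉ K := fun h =>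
          (Finset.disjoint_left.1 hdL (Finset.mem_union_right _ h)) hjL
        simp only [hiM, hjM, hiK, hjK, if_false]
        exact hXY i hiL j hjL hij
    intro i hi j hj hij
    have hmem : ∀ k ∈ s, k ∈ M ∨ k ∈ K ∨ k ∈ L := by
      intro k hk
      rw [hsplit] at hk
      rcases Finset.mem_union.1 hk with h | h
      · rcases Finset.mem_union.1 h with h | h
        · exact Or.inl h
        · exact Or.inr (Or.inl h)
      · exact Or.inr (Or.inr h)
    by_cases hiM : i ∈ M
    · exact main i hi j hj hij (Or.inl hiM)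
    · by_cases hjM : j ∈ M
      · have := main j hj i hi (Ne.symm hij) (Or.inl hjM)
        tauto
      · rcases hmem i hi with h | h | h
        · exact absurd h hiM
        · exact main i hi j hj hij (Or.inr (Or.inl ⟨h, hjM⟩))
        · rcases hmem j hj with h' | h' | h'
          · exact absurd h' hjM
          · have := main j hj i hi (Ne.symm hij) (Or.inr (Or.inl ⟨h', hiM⟩))
            tauto
          · exact main i hi j hj hij (Or.inr (Or.inr ⟨h, h'⟩))

theorem Good.swap {a b : ι → ℝ} {s : Finset ι} (h : Good a b s) : Good b a s := by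
  intro u v A B hA hB hAu hBv hS
  apply Packs.swap
  apply h v u B A hB hA hBv hAu
  have : ∑ i ∈ s, a i * b i = ∑ i ∈ s, b i * a i := Finset.sum_congr rfl fun i _ => mul_comm _ _
  rw [this, mul_comm v u, mul_comm (max (2 * B - v) 0)]
  exact hS

/-- cut off a vertical strip of width `w ≤ u / 2` into which a nonempty subfamily fits -/
theorem procT (a b : ι → ℝ) (s t : Finset ι) (hts : t ⊆ s) (htne : t.Nonempty)
    (ih : ∀ t ⊂ s, Good a b t) (u v w : ℝ) (hw : 0 ≤ w) (hwu : w ≤ u / 2) (hv : 0 ≤ v)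
    (hA : ∀ i ∈ s, a i ≤ u / 2) (hB : ∀ i ∈ s, b i ≤ v / 2) (ht : Packs a b t 0 0 w v)
    (hS : 2 * (∑ i ∈ s, a i * b i - ∑ i ∈ t, a i * b i) ≤ (u - w) * v) : Packs a b s 0 0 u v := by
  classical
  have hr : s \ t ⊂ s := by
    refine ⟨Finset.sdiff_subset, fun h => ?_⟩
    obtain ⟨i, hi⟩ := htne
    exact (Finset.mem_sdiff.1 (h (hts hi))).2 hi
  have hsum : ∑ i ∈ s \ t, a i * b i = ∑ i ∈ s, a i * b i - ∑ i ∈ t, a i * b i := by
    rw [← Finset.sum_sdiff hts]
    ring
  have hg : Packs a b (s \ t) 0 0 (u - w) v := by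
    refine ih _ hr (u - w) v (u / 2) (v / 2) (fun i hi => hA i (Finset.mem_sdiff.1 hi).1)
      (fun i hi => hB i (Finset.mem_sdiff.1 hi).1) (by linarith) (by linarith) ?_
    have e1 : max (2 * (v / 2) - v) 0 = 0 := by
      rw [max_eq_right]
      linarith
    rw [e1, hsum]
    linarith
  have := Packs.union (p := 0) (q := 0) (u := u) (v := v) ht (hg.move w 0)
    ⟨le_refl _, by linarith, le_refl _, le_refl _⟩ ⟨by linarith, by linarith, le_refl _, le_refl _⟩
    (Or.inl (by linarith))
  rwa [Finset.union_sdiff_of_subset hts] at this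

/-- cut the box by a vertical line into two boxes of widths at least `u / 2` and `u / 4` -/
theorem proc3 (a b : ι → ℝ) (s : Finset ι) (ha : ∀ i ∈ s, 0 < a i) (hb : ∀ i ∈ s, 0 < b i)
    (ih : ∀ t ⊂ s, Good a b t) (u v : ℝ) (hu : 0 < u) (hv : 0 < v)
    (hA : ∀ i ∈ s, a i ≤ u / 2) (hB : ∀ i ∈ s, b i ≤ v / 2)
    (hS : 2 * ∑ i ∈ s, a i * b i ≤ u * v)
    (h0 : ∀ i ∈ s, u * v / 4 < ∑ j ∈ s, a j * b j - a i * b i)
    (hW : ∑ i ∈ s with u / 4 < a i, a i * b i ≤ 3 / 8 * (u * v))
    (hN : ∃ i ∈ s, a i ≤ u / 4) : Packs a b s 0 0 u v := by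
  classical
  set N := s.filter (fun i => ¬ (u / 4 < a i)) with hNdef
  set S := ∑ i ∈ s, a i * b i with hSdef
  have hNs : N ⊆ s := Finset.filter_subset _ _
  have huv : 0 < u * v := mul_pos hu hv
  have hNsum : ∑ i ∈ s with u / 4 < a i, a i * b i + ∑ i ∈ N, a i * b i = S :=
    Finset.sum_filter_add_sum_filter_not _ _ _
  have hNne : N.Nonempty := by
    obtain ⟨i, hi, hi2⟩ := hN
    exact ⟨i, Finset.mem_filter.2 ⟨hi, not_lt.2 hi2⟩⟩
  have hitem : ∀ i ∈ N, a i * b i ≤ u * v / 8 := by
    intro i hi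
    have h1 : a i ≤ u / 4 := not_lt.1 (Finset.mem_filter.1 hi).2
    have h2 := hB i (hNs hi)
    calc a i * b i ≤ (u / 4) * (v / 2) :=
          mul_le_mul h1 h2 (hb i (hNs hi)).le (by positivity)
      _ = u * v / 8 := by ring
  -- a minimal nonempty subfamily `T` of the narrow ones with area at least `S - 3/8 uv`
  obtain ⟨T, hT, hTmin⟩ : ∃ T : Finset ι, (T ⊆ N ∧ T.Nonempty ∧ S - 3 / 8 * (u * v) ≤
      ∑ i ∈ T, a i * b i) ∧ ∀ T' ⊂ T, ¬ (T' ⊆ N ∧ T'.Nonempty ∧ S - 3 / 8 * (u * v) ≤
      ∑ i ∈ T', a i * b i) := by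
    have hex : ∃ T : Finset ι, (T ⊆ N ∧ T.Nonempty ∧ S - 3 / 8 * (u * v) ≤
      ∑ i ∈ T, a i * b i) := ⟨N, subset_refl _, hNne, by linarith⟩
    let P : Finset ι → Prop := fun T => T ⊆ N ∧ T.Nonempty ∧ S - 3 / 8 * (u * v) ≤
      ∑ i ∈ T, a i * b i
    have hwf := (Finset.isWellFounded_ssubset (α := ι)).wf
    obtain ⟨T, hT, hmin⟩ := hwf.has_min {T | P T} hex
    exact ⟨T, hT, fun T' hT' h => hmin T' h hT'⟩
  obtain ⟨hTN, hTne, hTS⟩ := hT
  have hTs : T ⊆ s := hTN.trans hNs
  have hT4 : ∑ i ∈ T, a i * b i ≤ u * v / 4 := by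
    by_contra hcon
    push Not at hcon
    obtain ⟨i, hi⟩ := hTne
    have hsplit : ∑ j ∈ T.erase i, a j * b j + a i * b i = ∑ j ∈ T, a j * b j :=
      Finset.sum_erase_add _ _ hi
    have h1 := hitem i (hTN hi)
    refine hTmin (T.erase i) (Finset.erase_ssubset hi) ⟨(Finset.erase_subset _ _).trans hTN, ?_, ?_⟩
    · by_contra h
      rw [Finset.not_nonempty_iff_eq_empty] at h
      rw [h, Finset.sum_empty] at hsplit
      linarith
    · linarith
  -- the other part
  set R := s \ T with hR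
  have hRs : R ⊂ s := by
    refine ⟨Finset.sdiff_subset, fun h => ?_⟩
    obtain ⟨i, hi⟩ := hTne
    exact (Finset.mem_sdiff.1 (h (hTs hi))).2 hi
  have hRsum : ∑ i ∈ R, a i * b i + ∑ i ∈ T, a i * b i = S := Finset.sum_sdiff hTs
  have hTss : T ⊂ s := by
    refine ⟨hTs, fun h => ?_⟩
    have hTeq : T = s := le_antisymm hTs h
    obtain ⟨i, hi⟩ := hTne
    have h1 := h0 i (hTs hi)
    have h2 : 0 < a i * b i := mul_pos (ha i (hTs hi)) (hb i (hTs hi))
    rw [hTeq] at hT4
    linarith
  have e0 : ∀ x : ℝ, x * max (2 * (v / 2) - v) 0 = 0 := by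
    intro x
    rw [max_eq_right (by linarith), mul_zero]
  -- width of the left box
  set u1 := max (u / 2) (2 * (∑ i ∈ R, a i * b i) / v) with hu1
  have hu1a : u / 2 ≤ u1 := le_max_left _ _
  have hu1b : 2 * (∑ i ∈ R, a i * b i) ≤ u1 * v := by
    have := le_max_right (u / 2) (2 * (∑ i ∈ R, a i * b i) / v)
    rw [← hu1, div_le_iff₀ hv] at this
    exact this
  have hu1c : u1 ≤ 3 / 4 * u := by
    apply max_le
    · linarith
    · rw [div_le_iff₀ hv]
      linarith
  have hu1d : 2 * (∑ i ∈ T, a i * b i) ≤ (u - u1) * v := by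
    have : u1 * v ≤ u * v - 2 * (∑ i ∈ T, a i * b i) := by
      rw [← le_div_iff₀ hv]
      apply max_le
      · rw [le_div_iff₀ hv]
        linarith
      · rw [div_le_div_iff_of_pos_right hv]
        linarith
    linarith
  have g1 : Packs a b R 0 0 u1 v := by
    refine ih R hRs u1 v (u / 2) (v / 2) (fun i hi => hA i (hRs.1 hi))
      (fun i hi => hB i (hRs.1 hi)) hu1a (by linarith) ?_
    rw [e0]
    linarith
  have g2 : Packs a b T 0 0 (u - u1) v := by
    refine ih T hTss (u - u1) v (u / 4) (v / 2) (fun i hi => not_lt.1 (Finset.mem_filter.1 (hTN hi)).2)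
      (fun i hi => hB i (hTs hi)) (by linarith) (by linarith) ?_
    rw [e0]
    linarith
  have := Packs.union (p := 0) (q := 0) (u := u) (v := v) g1 (g2.move u1 0)
    ⟨le_refl _, by linarith, le_refl _, le_refl _⟩ ⟨by linarith, by linarith, le_refl _, le_refl _⟩
    (Or.inl (by linarith))
  rwa [hR, Finset.sdiff_union_of_subset hTs] at this

/-- two big rectangles -/
theorem num (p q p' q' : ℝ) (h1 : 1 / 4 ≤ p) (h2 : 1 / 4 ≤ q) (h3 : 1 / 4 ≤ p') (h4 : 1 / 4 ≤ q') :
    max p p' ≤ 2 * (p * q + p' * q') ∨ max q q' ≤ 2 * (p * q + p' * q') := by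
  rcases le_total p p' with h | h <;> rcases le_total q q' with g | g
  · rw [max_eq_right h, max_eq_right g]
    rcases le_total p' q' with k | k
    · left; nlinarith [sq_nonneg (p' - 1 / 4), mul_nonneg (sub_nonneg.2 h1) (sub_nonneg.2 h2)]
    · right; nlinarith [sq_nonneg (q' - 1 / 4), mul_nonneg (sub_nonneg.2 h1) (sub_nonneg.2 h2)]
  · rw [max_eq_right h, max_eq_left g]
    rcases le_total p' q with k | k
    · left; nlinarith
    · right; nlinarith
  · rw [max_eq_left h, max_eq_right g]
    rcases le_total p q' with k | k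
    · left; nlinarith
    · right; nlinarith
  · rw [max_eq_left h, max_eq_left g]
    rcases le_total p q with k | k
    · left; nlinarith [sq_nonneg (p - 1 / 4), mul_nonneg (sub_nonneg.2 h3) (sub_nonneg.2 h4)]
    · right; nlinarith [sq_nonneg (q - 1 / 4), mul_nonneg (sub_nonneg.2 h3) (sub_nonneg.2 h4)]

/-- two rectangles on top of each other -/
theorem packs_pair (a b : ι → ℝ) [DecidableEq ι] (i k : ι) (v w : ℝ) (h1 : a i ≤ w) (h2 : a k ≤ w)
    (h3 : b i + b k ≤ v) (hb : 0 ≤ b i) (hb' : 0 ≤ b k) : Packs a b {i, k} 0 0 w v := by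
  have g1 : Packs a b {i} 0 0 w (b i) := packs_single a b i _ _ _ _ h1 (le_refl _)
  have g2 : Packs a b {k} 0 (b i) w (b k) := packs_single a b k _ _ _ _ h2 (le_refl _)
  exact Packs.union (p := 0) (q := 0) (u := w) (v := v) g1 g2
    ⟨le_refl _, le_refl _, le_refl _, by linarith⟩ ⟨le_refl _, le_refl _, hb, by linarith⟩
    (Or.inr (Or.inr (Or.inl (by linarith))))

/-- cut off two big rectangles, first variant -/
theorem proc2 (a b : ι → ℝ) (s : Finset ι) (ha : ∀ i ∈ s, 0 < a i) (hb : ∀ i ∈ s, 0 < b i)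
    (ih : ∀ t ⊂ s, Good a b t) (u v : ℝ) (hv : 0 < v)
    (hA : ∀ i ∈ s, a i ≤ u / 2) (hB : ∀ i ∈ s, b i ≤ v / 2)
    (hS : 2 * ∑ i ∈ s, a i * b i ≤ u * v) (i k : ι) (hi : i ∈ s) (hk : k ∈ s) (hik : i ≠ k)
    (h : max (a i) (a k) * v ≤ 2 * (a i * b i + a k * b k)) : Packs a b s 0 0 u v := by
  classical
  have hsub : ({i, k} : Finset ι) ⊆ s := by
    intro j hj
    rw [Finset.mem_insert, Finset.mem_singleton] at hj
    rcases hj with rfl | rfl
    · exact hi
    · exact hk
  refine procT a b s {i, k} hsub ⟨i, by simp⟩ ih u v (max (a i) (a k))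
    (le_trans (ha i hi).le (le_max_left _ _)) (max_le (hA i hi) (hA k hk)) hv.le hA hB ?_ ?_
  · exact packs_pair a b i k v _ (le_max_left _ _) (le_max_right _ _)
      (by linarith [hB i hi, hB k hk]) (hb i hi).le (hb k hk).le
  · rw [Finset.sum_pair hik]
    linarith

/-- no rectangle is wider or higher than half of the box; the wide ones have small total area -/
theorem case3aux (a b : ι → ℝ) (s : Finset ι) (ha : ∀ i ∈ s, 0 < a i) (hb : ∀ i ∈ s, 0 < b i)
    (ih : ∀ t ⊂ s, Good a b t) (u v : ℝ) (hu : 0 < u) (hv : 0 < v)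
    (hA : ∀ i ∈ s, a i ≤ u / 2) (hB : ∀ i ∈ s, b i ≤ v / 2)
    (hS : 2 * ∑ i ∈ s, a i * b i ≤ u * v)
    (h0 : ∀ i ∈ s, u * v / 4 < ∑ j ∈ s, a j * b j - a i * b i)
    (h2 : ∀ i ∈ s, ∀ k ∈ s, u / 4 < a i → u / 4 < a k → v / 4 < b i → v / 4 < b k → i = k)
    (hne : s.Nonempty)
    (hW : ∑ i ∈ s with u / 4 < a i, a i * b i ≤ 3 / 8 * (u * v)) : Packs a b s 0 0 u v := by
  classical
  by_cases hN : ∃ i ∈ s, a i ≤ u / 4
  · exact proc3 a b s ha hb ih u v hu hv hA hB hS h0 hW hN
  push Not at hN
  have hWs : s.filter (fun i => u / 4 < a i) = s := Finset.filter_true_of_mem hN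
  rw [hWs] at hW
  by_cases hN' : ∃ i ∈ s, b i ≤ v / 4
  · have hW' : ∑ i ∈ s with v / 4 < b i, b i * a i ≤ 3 / 8 * (v * u) := by
      calc ∑ i ∈ s with v / 4 < b i, b i * a i ≤ ∑ i ∈ s, b i * a i :=
            Finset.sum_le_sum_of_subset_of_nonneg (Finset.filter_subset _ _)
              (fun i hi _ => (mul_pos (hb i hi) (ha i hi)).le)
        _ = ∑ i ∈ s, a i * b i := Finset.sum_congr rfl fun i _ => mul_comm _ _
        _ ≤ 3 / 8 * (v * u) := by rw [mul_comm v u]; exact hW
    have hcomm : ∑ i ∈ s, b i * a i = ∑ i ∈ s, a i * b i :=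
      Finset.sum_congr rfl fun i _ => mul_comm _ _
    apply Packs.swap
    refine proc3 b a s hb ha (fun t ht => (ih t ht).swap) v u hv hu hB hA ?_ ?_ hW' hN'
    · rw [hcomm, mul_comm v u]; exact hS
    · intro i hi
      rw [hcomm, mul_comm v u, mul_comm (b i)]
      exact h0 i hi
  · push Not at hN'
    exfalso
    obtain ⟨i, hi⟩ := hne
    have hs : s = {i} := by
      rw [Finset.eq_singleton_iff_unique_mem]
      exact ⟨hi, fun k hk => h2 k hk i hi (hN k hk) (hN i hi) (hN' k hk) (hN' i hi)⟩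
    have := h0 i hi
    rw [hs, Finset.sum_singleton] at this
    have : 0 < u * v := mul_pos hu hv
    linarith

theorem case3 (a b : ι → ℝ) (s : Finset ι) (ha : ∀ i ∈ s, 0 < a i) (hb : ∀ i ∈ s, 0 < b i)
    (ih : ∀ t ⊂ s, Good a b t) (u v : ℝ) (hu : 0 < u) (hv : 0 < v)
    (hA : ∀ i ∈ s, a i ≤ u / 2) (hB : ∀ i ∈ s, b i ≤ v / 2)
    (hS : 2 * ∑ i ∈ s, a i * b i ≤ u * v) : Packs a b s 0 0 u v := by
  classical
  have huv : 0 < u * v := mul_pos hu hv
  have hcomm : ∀ t : Finset ι, ∑ i ∈ t, b i * a i = ∑ i ∈ t, a i * b i :=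
    fun t => Finset.sum_congr rfl fun i _ => mul_comm _ _
  rcases s.eq_empty_or_nonempty with rfl | hne
  · exact packs_empty _ _ _ _ _ _
  by_cases h0 : ∃ i ∈ s, ∑ j ∈ s, a j * b j - a i * b i ≤ u * v / 4
  · obtain ⟨i, hi, h⟩ := h0
    refine procT a b s {i} (Finset.singleton_subset_iff.2 hi) ⟨i, by simp⟩ ih u v (a i)
      (ha i hi).le (hA i hi) hv.le hA hB ?_ ?_
    · exact packs_single a b i _ _ _ _ (le_refl _) (by linarith [hB i hi])
    · rw [Finset.sum_singleton]
      nlinarith [hA i hi]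
  push Not at h0
  by_cases h2 : ∃ i ∈ s, ∃ k ∈ s, u / 4 < a i ∧ u / 4 < a k ∧ v / 4 < b i ∧ v / 4 < b k ∧ i ≠ k
  · obtain ⟨i, hi, k, hk, g1, g2, g3, g4, hik⟩ := h2
    have := num (a i / u) (b i / v) (a k / u) (b k / v)
      (by rw [le_div_iff₀ hu]; linarith) (by rw [le_div_iff₀ hv]; linarith)
      (by rw [le_div_iff₀ hu]; linarith) (by rw [le_div_iff₀ hv]; linarith)
    have e : 2 * (a i / u * (b i / v) + a k / u * (b k / v)) =
        2 * (a i * b i + a k * b k) / (u * v) := by
      field_simp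
    rw [e] at this
    rcases this with h | h
    · refine proc2 a b s ha hb ih u v hv hA hB hS i k hi hk hik ?_
      rw [max_div_div_right hu.le, div_le_div_iff₀ hu huv] at h
      have h' : u * (max (a i) (a k) * v) ≤ u * (2 * (a i * b i + a k * b k)) := by linarith
      exact le_of_mul_le_mul_left h' hu
    · apply Packs.swap
      refine proc2 b a s hb ha (fun t ht => (ih t ht).swap) v u hu hB hA ?_ i k hi hk hik ?_
      · rw [hcomm, mul_comm v u]; exact hS
      · rw [max_div_div_right hv.le, div_le_div_iff₀ hv huv] at h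
        have h' : v * (max (b i) (b k) * u) ≤ v * (2 * (b i * a i + b k * a k)) := by linarith
        exact le_of_mul_le_mul_left h' hv
  push Not at h2
  have h2' : ∀ i ∈ s, ∀ k ∈ s, u / 4 < a i → u / 4 < a k → v / 4 < b i → v / 4 < b k → i = k := by
    intro i hi k hk g1 g2 g3 g4
    exact h2 i hi k hk g1 g2 g3 g4
  set W := s.filter (fun i => u / 4 < a i) with hW
  set T := s.filter (fun i => v / 4 < b i) with hT
  have hWT : ∑ i ∈ W ∪ T, a i * b i + ∑ i ∈ W ∩ T, a i * b i =
      ∑ i ∈ W, a i * b i + ∑ i ∈ T, a i * b i := Finset.sum_union_inter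
  have h1 : ∑ i ∈ W ∪ T, a i * b i ≤ ∑ i ∈ s, a i * b i := by
    apply Finset.sum_le_sum_of_subset_of_nonneg
    · exact Finset.union_subset (Finset.filter_subset _ _) (Finset.filter_subset _ _)
    · intro i hi _
      exact (mul_pos (ha i hi) (hb i hi)).le
  have h3 : ∑ i ∈ W ∩ T, a i * b i ≤ u * v / 4 := by
    rcases (W ∩ T).eq_empty_or_nonempty with h | ⟨i, hi⟩
    · rw [h, Finset.sum_empty]; linarith
    · have hiW := Finset.mem_filter.1 (Finset.mem_inter.1 hi).1
      have hiT := Finset.mem_filter.1 (Finset.mem_inter.1 hi).2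
      have : W ∩ T = {i} := by
        rw [Finset.eq_singleton_iff_unique_mem]
        refine ⟨hi, fun k hk => ?_⟩
        have hkW := Finset.mem_filter.1 (Finset.mem_inter.1 hk).1
        have hkT := Finset.mem_filter.1 (Finset.mem_inter.1 hk).2
        exact h2' k hkW.1 i hiW.1 hkW.2 hiW.2 hkT.2 hiT.2
      rw [this, Finset.sum_singleton]
      calc a i * b i ≤ (u / 2) * (v / 2) :=
            mul_le_mul (hA i hiW.1) (hB i hiW.1) (hb i hiW.1).le (by positivity)
        _ = u * v / 4 := by ring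
  have h4 : ∑ i ∈ W, a i * b i ≤ 3 / 8 * (u * v) ∨ ∑ i ∈ T, a i * b i ≤ 3 / 8 * (u * v) := by
    by_contra hcon
    push Not at hcon
    linarith [hcon.1, hcon.2]
  rcases h4 with h | h
  · exact case3aux a b s ha hb ih u v hu hv hA hB hS h0 h2' hne h
  · apply Packs.swap
    refine case3aux b a s hb ha (fun t ht => (ih t ht).swap) v u hv hu hB hA ?_ ?_ ?_ hne ?_
    · rw [hcomm, mul_comm v u]; exact hS
    · intro i hi
      rw [hcomm, mul_comm v u, mul_comm (b i)]
      exact h0 i hi
    · intro i hi k hk g1 g2 g3 g4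
      exact h2' i hi k hk g3 g4 g1 g2
    · rw [hcomm, mul_comm v u]; exact h

/-- **Steinberg's theorem.** -/
theorem good (a b : ι → ℝ) (s : Finset ι) (ha : ∀ i ∈ s, 0 < a i) (hb : ∀ i ∈ s, 0 < b i) :
    Good a b s := by
  classical
  revert ha hb
  refine Finset.strongInductionOn s ?_
  intro s ih0 ha hb
  have ih : ∀ t ⊂ s, Good a b t := fun t ht =>
    ih0 t ht (fun i hi => ha i (ht.1 hi)) (fun i hi => hb i (ht.1 hi))
  intro u v A B hA hB hAu hBv hS
  rcases s.eq_empty_or_nonempty with rfl | ⟨i0, hi0⟩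
  · exact packs_empty _ _ _ _ _ _
  have hu : 0 < u := by linarith [ha i0 hi0, hA i0 hi0]
  have hv : 0 < v := by linarith [hb i0 hi0, hB i0 hi0]
  by_cases hw : ∃ i ∈ s, u / 2 < a i
  · exact proc1 a b s ha hb ih u v A B hA hB hAu hBv hS hw
  by_cases hh : ∃ i ∈ s, v / 2 < b i
  · apply Packs.swap
    refine proc1 b a s hb ha (fun t ht => (ih t ht).swap) v u B A hB hA hBv hAu ?_ hh
    have : ∑ i ∈ s, b i * a i = ∑ i ∈ s, a i * b i := Finset.sum_congr rfl fun i _ => mul_comm _ _
    rw [this, mul_comm v u, mul_comm (max (2 * B - v) 0)]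
    exact hS
  push Not at hw hh
  refine case3 a b s ha hb ih u v hu hv hw hh ?_
  have : 0 ≤ max (2 * A - u) 0 * max (2 * B - v) 0 :=
    mul_nonneg (le_max_right _ _) (le_max_right _ _)
  linarith

end Pool.Agent.V7H17.Steinberg
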