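import Mathlib
import Pool.Agent.V7H17.Steinberg

set_option autoImplicit false

/-!
# Rectangles of total area one and sides at most one: packing into a square of area two

The finite case and the passage to arbitrary families by compactness.
-/

namespace Pool.Agent.V7H17.MoserRect

open Finset Pool.Agent.V7H17.Steinberg

variable {ι : Type*}

theorem Packs.congr {a b a' b' : ι → ℝ} {s : Finset ι} {p q u v : ℝ} (h : Packs a b s p q u v)
    (ha : ∀ i ∈ s, a i = a' i) (hb : ∀ i ∈ s, b i = b' i) : Packs a' b' s p q u v := by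
  obtain ⟨x, y, h1, h2⟩ := h
  refine ⟨x, y, fun i hi => ?_, fun i hi j hj hij => ?_⟩
  · rw [← ha i hi, ← hb i hi]; exact h1 i hi
  · rw [← ha i hi, ← hb i hi, ← ha j hj, ← hb j hj]; exact h2 i hi j hj hij

theorem num1 (c p q m n : ℝ) (hc : c ^ 2 = 2) (hc0 : 0 < c) (hpq : q ≤ p) (hq : c / 2 < q)
    (hmn : n ≤ m) (hn : 0 < n) (h : p * q + m * n ≤ 1) : q + n ≤ c := by
  have hq0 : 0 < q := by linarith
  have h1 : (q + n) ^ 2 ≤ c ^ 2 := by nlinarith [sq_nonneg (q - n)]
  exact le_trans (le_abs_self _) (abs_le_of_sq_le_sq h1 hc0.le)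

/-- `p, q` and `m, n` are the sides of the two first rectangles, `β` is the largest short side of the
other ones; `c` is `√2` -/
theorem num2 (c p q m n β : ℝ) (hc : c ^ 2 = 2) (hc1 : 1.4142 < c) (hc2 : c < 1.4143) (hpq : q ≤ p)
    (hq : c / 2 < q) (hp1 : p ≤ 1) (hm1 : m ≤ 1) (hmn : n ≤ m) (hβn : β ≤ n) (hβ : 0 < β)
    (h : p * q + m * n + β ^ 2 ≤ 1) : β ≤ c - max p m := by
  have hq0 : 0 < q := by linarith
  by_contra hcon
  push Not at hcon
  have hor : c - p < β ∨ c - m < β := by
    by_contra h'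
    push Not at h'
    have := max_le (a := p) (b := m) (c := c - β) (by linarith [h'.1]) (by linarith [h'.2])
    linarith
  have hβ' : β < 0.354 := by
    rcases hor with h' | h'
    · by_contra h1
      push Not at h1
      nlinarith [mul_le_mul hβn hβn hβ.le (by linarith), mul_le_mul hmn (le_refl n) (by linarith) (by linarith)]
    · by_contra h1
      push Not at h1
      nlinarith [mul_le_mul hβn hβn hβ.le (by linarith), mul_le_mul hmn (le_refl n) (by linarith) (by linarith)]
  rcases hor with h' | h' <;> linarith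

theorem num3 (c p q m n β : ℝ) (hc : c ^ 2 = 2) (hc1 : 1.4142 < c) (hc2 : c < 1.4143) (hpq : q ≤ p)
    (hq : c / 2 < q) (hp1 : p ≤ 1) (hm1 : m ≤ 1) (hmn : n ≤ m) (hn : (c - q) / 2 < n) (hβn : β ≤ n)
    (hβ : 0 < β) :
    c * max p m + max (2 * β - (c - max p m)) 0 * (2 - c) ≤ 2 * (p * q + m * n) := by
  have hq0 : 0 < q := by linarith
  have hn0 : 0 < n := by linarith
  rcases le_total (2 * β - (c - max p m)) 0 with h0 | h0
  · rw [max_eq_right h0]
    rcases le_total p m with hpm | hpm
    · rw [max_eq_right hpm]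
      nlinarith
    · rw [max_eq_left hpm]
      nlinarith [mul_pos hn0 (lt_of_lt_of_le hn0 hmn)]
  · rw [max_eq_left h0]
    rcases le_total p m with hpm | hpm
    · rw [max_eq_right hpm]
      have e1 := mul_nonneg (sub_nonneg.2 hpq) hq0.le
      have e2 := mul_nonneg (sub_nonneg.2 hm1) (by linarith : 0 ≤ 1 - n)
      have e3 := mul_nonneg (sub_nonneg.2 hβn) (by linarith : 0 ≤ 2 - c)
      have e4 := mul_nonneg (by linarith : 0 ≤ n - (c - q) / 2) (by linarith : 0 ≤ c - 1)
      have e5 := mul_nonneg (by linarith : 0 ≤ q - c / 2) hq0.le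
      nlinarith
    · rw [max_eq_left hpm]
      have e1 := mul_nonneg (by linarith : 0 ≤ q - c / 2) (by linarith : 0 ≤ p)
      have e2 : β * β ≤ m * n := mul_le_mul (by linarith) hβn hβ.le (by linarith)
      have e3 := mul_nonneg (sub_nonneg.2 hp1) (by linarith : 0 ≤ 2 - c)
      have e4 := sq_nonneg (β - (2 - c) / 2)
      nlinarith

/-- the finite case, with sides ordered by `b i ≤ a i` -/
theorem finite_ordered (a b : ι → ℝ) (s : Finset ι) (hb : ∀ i ∈ s, 0 < b i)
    (hab : ∀ i ∈ s, b i ≤ a i) (ha : ∀ i ∈ s, a i ≤ 1) (hS : ∑ i ∈ s, a i * b i ≤ 1) :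
    ∃ o : ι → Bool, Packs (fun i => if o i then a i else b i) (fun i => if o i then b i else a i)
      s 0 0 (√2) (√2) := by
  classical
  set c := √2 with hcdef
  have hc : c ^ 2 = 2 := Real.sq_sqrt (by norm_num)
  have hc1 : 1.4142 < c := Real.lt_sqrt_of_sq_lt (by norm_num)
  have hc2 : c < 1.4143 := by
    rw [hcdef, Real.sqrt_lt' (by norm_num)]
    norm_num
  have ha0 : ∀ i ∈ s, 0 < a i := fun i hi => lt_of_lt_of_le (hb i hi) (hab i hi)
  by_cases hbig : ∃ r ∈ s, c / 2 < b r
  swap
  · push Not at hbig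
    refine ⟨fun _ => true, ?_⟩
    simp only [if_true]
    refine good a b s ha0 hb c c 1 (c / 2) ha hbig (by linarith) (by linarith) ?_
    have : max (2 * (c / 2) - c) 0 = 0 := max_eq_right (by linarith)
    rw [this]
    nlinarith
  obtain ⟨r, hr, hbr⟩ := hbig
  set p := a r with hp
  set q := b r with hq
  have hpq : q ≤ p := hab r hr
  have hp1 : p ≤ 1 := ha r hr
  have herase : ∑ i ∈ s.erase r, a i * b i + p * q = ∑ i ∈ s, a i * b i :=
    Finset.sum_erase_add _ _ hr
  by_cases hsec : ∃ t ∈ s.erase r, (c - q) / 2 < b t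
  swap
  · -- the others go into the strip above
    push Not at hsec
    refine ⟨fun _ => true, ?_⟩
    simp only [if_true]
    have g1 : Packs a b (s.erase r) 0 0 c (c - q) := by
      refine good a b _ (fun i hi => ha0 i (Finset.mem_of_mem_erase hi))
        (fun i hi => hb i (Finset.mem_of_mem_erase hi)) c (c - q) 1 ((c - q) / 2)
        (fun i hi => ha i (Finset.mem_of_mem_erase hi)) hsec (by linarith) (by linarith) ?_
      have : max (2 * ((c - q) / 2) - (c - q)) 0 = 0 := max_eq_right (by linarith)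
      rw [this]
      nlinarith
    have g2 : Packs a b {r} 0 0 c q := packs_single a b r _ _ _ _ (by linarith) (le_refl _)
    have := Packs.union (p := 0) (q := 0) (u := c) (v := c) g2 (g1.move 0 q)
      ⟨le_refl _, le_refl _, le_refl _, by linarith⟩
      ⟨le_refl _, le_refl _, by linarith, by linarith⟩ (Or.inr (Or.inr (Or.inl (by linarith))))
    rwa [← Finset.insert_eq, Finset.insert_erase hr] at this
  -- a second rectangle with large short side
  obtain ⟨t, ht, htmax⟩ : ∃ t ∈ s.erase r, ∀ i ∈ s.erase r, b i ≤ b t := by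
    obtain ⟨t, ht, -⟩ := hsec
    exact Finset.exists_max_image (s.erase r) b ⟨t, ht⟩
  have htn : (c - q) / 2 < b t := by
    obtain ⟨t', ht', h⟩ := hsec
    exact lt_of_lt_of_le h (htmax t' ht')
  have hts : t ∈ s := Finset.mem_of_mem_erase ht
  have htr : t ≠ r := Finset.ne_of_mem_erase ht
  set m := a t with hm
  set n := b t with hn
  have hmn : n ≤ m := hab t hts
  have hm1 : m ≤ 1 := ha t hts
  have hn0 : 0 < n := hb t hts
  set L := (s.erase r).erase t with hL
  have hLs : ∀ i ∈ L, i ∈ s := fun i hi =>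
    Finset.mem_of_mem_erase (Finset.mem_of_mem_erase hi)
  have herase2 : ∑ i ∈ L, a i * b i + m * n = ∑ i ∈ s.erase r, a i * b i :=
    Finset.sum_erase_add _ _ ht
  have hLnn : 0 ≤ ∑ i ∈ L, a i * b i :=
    Finset.sum_nonneg fun i hi => (mul_pos (ha0 i (hLs i hi)) (hb i (hLs i hi))).le
  have hw0 : 0 < max p m := lt_of_lt_of_le (by linarith) (le_max_left p m)
  have hw1 : max p m ≤ 1 := max_le hp1 hm1
  have hqn : q + n ≤ c := num1 c p q m n hc (by linarith) hpq hbr hmn hn0 (by linarith)
  have hcomm : ∑ i ∈ L, b i * a i = ∑ i ∈ L, a i * b i :=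
    Finset.sum_congr rfl fun i _ => mul_comm _ _
  have gL : Packs b a L 0 0 (c - max p m) c := by
    rcases L.eq_empty_or_nonempty with hLe | hLne
    · rw [hLe]; exact packs_empty _ _ _ _ _ _
    · obtain ⟨k, hk, hkmax⟩ := Finset.exists_max_image L b hLne
      have hβ0 : 0 < b k := hb k (hLs k hk)
      have hβn : b k ≤ n := htmax k (Finset.mem_of_mem_erase hk)
      have hkS : a k * b k ≤ ∑ i ∈ L, a i * b i :=
        Finset.single_le_sum (f := fun i => a i * b i)
          (fun i hi => (mul_pos (ha0 i (hLs i hi)) (hb i (hLs i hi))).le) hk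
      have hkk : b k ^ 2 ≤ a k * b k := by
        rw [sq]
        exact mul_le_mul_of_nonneg_right (hab k (hLs k hk)) hβ0.le
      have hsum1 : p * q + m * n + b k ^ 2 ≤ 1 := by linarith
      have n2 := num2 c p q m n (b k) hc hc1 hc2 hpq hbr hp1 hm1 hmn hβn hβ0 hsum1
      have n3 := num3 c p q m n (b k) hc hc1 hc2 hpq hbr hp1 hm1 hmn htn hβn hβ0
      refine good b a L (fun i hi => hb i (hLs i hi)) (fun i hi => ha0 i (hLs i hi))
        (c - max p m) c (b k) 1 hkmax (fun i hi => ha i (hLs i hi)) n2 (by linarith) ?_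
      rw [hcomm]
      have e1 : max (2 * 1 - c) 0 = 2 - c := by
        rw [max_eq_left (by linarith)]; ring
      rw [e1]
      nlinarith
  refine ⟨fun i => decide (i = r ∨ i = t), ?_⟩
  have hor : ∀ i ∈ L, ¬ (i = r ∨ i = t) := by
    intro i hi
    have h1 := Finset.ne_of_mem_erase hi
    have h2 := Finset.ne_of_mem_erase (Finset.mem_of_mem_erase hi)
    tauto
  have g1 : Packs (fun i => if decide (i = r ∨ i = t) then a i else b i)
      (fun i => if decide (i = r ∨ i = t) then b i else a i) {r, t} 0 0 (max p m) c := by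
    apply packs_pair
    · simp [← hp]
    · simp [← hm]
    · simpa [← hq, ← hn] using hqn
    · simpa using (hb r hr).le
    · simpa using hn0.le
  have g2 : Packs (fun i => if decide (i = r ∨ i = t) then a i else b i)
      (fun i => if decide (i = r ∨ i = t) then b i else a i) L 0 0 (c - max p m) c := by
    refine Packs.congr gL ?_ ?_
    · intro i hi; simp [hor i hi]
    · intro i hi; simp [hor i hi]
  have := Packs.union (p := 0) (q := 0) (u := c) (v := c) g1 (g2.move (max p m) 0)
    ⟨le_refl _, by linarith, le_refl _, by linarith⟩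
    ⟨by linarith, by linarith, le_refl _, le_refl _⟩ (Or.inl (by linarith))
  have hs : ({r, t} : Finset ι) ∪ L = s := by
    ext i
    simp only [hL, Finset.mem_union, Finset.mem_insert, Finset.mem_singleton, Finset.mem_erase]
    constructor
    · rintro ((rfl | rfl) | ⟨_, _, h⟩)
      · exact hr
      · exact hts
      · exact h
    · intro hi
      by_cases h1 : i = r
      · left; left; exact h1
      · by_cases h2 : i = t
        · left; right; exact h2
        · right; exact ⟨h2, h1, hi⟩
  rwa [hs] at this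

/-- the finite case -/
theorem finite_case (a b : ι → ℝ) (s : Finset ι) (ha : ∀ i ∈ s, 0 < a i ∧ a i ≤ 1)
    (hb : ∀ i ∈ s, 0 < b i ∧ b i ≤ 1) (hS : ∑ i ∈ s, a i * b i ≤ 1) :
    ∃ o : ι → Bool, Packs (fun i => if o i then a i else b i) (fun i => if o i then b i else a i)
      s 0 0 (√2) (√2) := by
  have hS' : ∑ i ∈ s, max (a i) (b i) * min (a i) (b i) ≤ 1 := by
    refine le_trans (le_of_eq (Finset.sum_congr rfl fun i _ => ?_)) hS
    exact max_mul_min _ _
  obtain ⟨o, ho⟩ := finite_ordered (fun i => max (a i) (b i)) (fun i => min (a i) (b i)) s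
    (fun i hi => lt_min (ha i hi).1 (hb i hi).1) (fun i _ => min_le_max)
    (fun i hi => max_le (ha i hi).2 (hb i hi).2) hS'
  refine ⟨fun i => if b i ≤ a i then o i else !(o i), Packs.congr ho ?_ ?_⟩
  · intro i _
    dsimp only
    rcases le_or_gt (b i) (a i) with h | h
    · simp only [h, if_true, max_eq_left, min_eq_right]
    · simp only [not_le.2 h, if_false, max_eq_right h.le, min_eq_left h.le]
      cases o i <;> simp
  · intro i _
    dsimp only
    rcases le_or_gt (b i) (a i) with h | h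
    · simp only [h, if_true, max_eq_left, min_eq_right]
    · simp only [not_le.2 h, if_false, max_eq_right h.le, min_eq_left h.le]
      cases o i <;> simp

/-- horizontal extension of the rectangle `i` in the orientation `o` -/
def wd (a b : ι → ℝ) (i : ι) (o : Bool) : ℝ := if o then a i else b i

/-- the condition on the placements `f i`, `f j` of two rectangles -/
def Cond (a b : ι → ℝ) (f : ι → Bool × ℝ × ℝ) (i j : ι) : Prop :=
  ((f i).2.1 + wd a b i (f i).1 ≤ √2 ∧ (f i).2.2 + wd b a i (f i).1 ≤ √2) ∧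
  (i ≠ j → (f i).2.1 + wd a b i (f i).1 ≤ (f j).2.1 ∨ (f j).2.1 + wd a b j (f j).1 ≤ (f i).2.1 ∨
    (f i).2.2 + wd b a i (f i).1 ≤ (f j).2.2 ∨ (f j).2.2 + wd b a j (f j).1 ≤ (f i).2.2)

theorem closed_cond (a b : ι → ℝ) (i j : ι) : IsClosed {f : ι → Bool × ℝ × ℝ | Cond a b f i j} := by
  have c1 : ∀ k, Continuous fun f : ι → Bool × ℝ × ℝ => (f k).2.1 := fun k =>
    continuous_fst.comp (continuous_snd.comp (continuous_apply k))
  have c2 : ∀ k, Continuous fun f : ι → Bool × ℝ × ℝ => (f k).2.2 := fun k =>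
    continuous_snd.comp (continuous_snd.comp (continuous_apply k))
  have c3 : ∀ (a b : ι → ℝ) (k), Continuous fun f : ι → Bool × ℝ × ℝ => wd a b k (f k).1 :=
    fun a b k => (continuous_of_discreteTopology (f := fun o : Bool => wd a b k o)).comp
      (continuous_fst.comp (continuous_apply k))
  unfold Cond
  refine IsClosed.and ?_ ?_
  · exact (isClosed_le ((c1 i).add (c3 a b i)) continuous_const).and
      (isClosed_le ((c2 i).add (c3 b a i)) continuous_const)
  · by_cases hij : i = j
    · simp [hij]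
    · simp only [ne_eq, hij, not_false_eq_true, true_implies]
      exact (isClosed_le ((c1 i).add (c3 a b i)) (c1 j)).union
        ((isClosed_le ((c1 j).add (c3 a b j)) (c1 i)).union
        ((isClosed_le ((c2 i).add (c3 b a i)) (c2 j)).union
        (isClosed_le ((c2 j).add (c3 b a j)) (c2 i))))

/-- **Packing of an arbitrary family.** -/
theorem exists_placement (a b : ι → ℝ) (ha : ∀ i, 0 < a i ∧ a i ≤ 1) (hb : ∀ i, 0 < b i ∧ b i ≤ 1)
    (hS : ∀ s : Finset ι, ∑ i ∈ s, a i * b i ≤ 1) :
    ∃ f : ι → Bool × ℝ × ℝ, (∀ i, 0 ≤ (f i).2.1 ∧ 0 ≤ (f i).2.2) ∧ ∀ i j, Cond a b f i j := by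
  classical
  set K : Set (ι → Bool × ℝ × ℝ) :=
    Set.pi Set.univ (fun _ => (Set.univ : Set Bool) ×ˢ (Set.Icc 0 (√2) ×ˢ Set.Icc 0 (√2))) with hK
  have hKc : IsCompact K := isCompact_univ_pi fun _ =>
    isCompact_univ.prod (isCompact_Icc.prod isCompact_Icc)
  have := hKc.inter_iInter_nonempty (fun ij : ι × ι => {f | Cond a b f ij.1 ij.2})
    (fun ij => closed_cond a b ij.1 ij.2) ?_
  · obtain ⟨f, hf1, hf2⟩ := this
    refine ⟨f, fun i => ?_, fun i j => ?_⟩
    · have := hf1 i (Set.mem_univ i)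
      exact ⟨this.2.1.1, this.2.2.1⟩
    · exact Set.mem_iInter.1 hf2 (i, j)
  · intro u
    set s : Finset ι := u.image Prod.fst ∪ u.image Prod.snd with hs
    obtain ⟨o, x, y, h1, h2⟩ := finite_case a b s (fun i _ => ha i) (fun i _ => hb i) (hS s)
    simp only [zero_add] at h1
    have hsq : (0 : ℝ) ≤ √2 := Real.sqrt_nonneg _
    set g : ι → Bool × ℝ × ℝ := fun i => if i ∈ s then (o i, x i, y i) else (true, 0, 0) with hg
    have hgs : ∀ i ∈ s, g i = (o i, x i, y i) := fun i hi => by rw [hg]; simp only [hi, if_true]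
    refine ⟨g, ?_, ?_⟩
    · intro i _
      by_cases hi : i ∈ s
      · rw [hgs i hi]
        obtain ⟨g1, g2, g3, g4⟩ := h1 i hi
        have hw : 0 ≤ (if o i then a i else b i) := by split_ifs; exacts [(ha i).1.le, (hb i).1.le]
        have hh : 0 ≤ (if o i then b i else a i) := by split_ifs; exacts [(hb i).1.le, (ha i).1.le]
        exact ⟨Set.mem_univ _, ⟨g1, by linarith⟩, ⟨g3, by linarith⟩⟩
      · rw [hg]
        simp only [hi, if_false]
        exact ⟨Set.mem_univ _, ⟨le_refl _, hsq⟩, ⟨le_refl _, hsq⟩⟩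
    · simp only [Set.mem_iInter]
      intro ij hij
      have hi : ij.1 ∈ s := Finset.mem_union_left _ (Finset.mem_image_of_mem _ hij)
      have hj : ij.2 ∈ s := Finset.mem_union_right _ (Finset.mem_image_of_mem _ hij)
      change Cond a b g ij.1 ij.2
      unfold Cond wd
      rw [hgs _ hi, hgs _ hj]
      obtain ⟨g1, g2, g3, g4⟩ := h1 ij.1 hi
      exact ⟨⟨g2, g4⟩, fun hne => h2 ij.1 hi ij.2 hj hne⟩

end Pool.Agent.V7H17.MoserRect
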